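import Mathlib
import Pool.Agent.H2.TCh2

namespace Pool.Agent.Results.MP_f24352_gt.NotNChar

open Pool.Agent.H2.TCh Topology Pointwise

/-- A closed G-delta subgroup of a precompact abelian group that is not N-characterized. -/
theorem result : ∃ (X : Type) (_ : AddCommGroup X) (_ : TopologicalSpace X) (F : AddSubgroup X),
    IsTopologicalAddGroup X ∧ T2Space X ∧
    (∀ U ∈ 𝓝 (0 : X), ∃ E : Set X, E.Finite ∧ U + E = Set.univ) ∧
    IsClosed (F : Set X) ∧ IsGδ (F : Set X) ∧
    ∀ v : ℕ → Dual X, (F : Set X) ≠ ⋂ n, {x | v n x = 0} :=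
  ⟨XX, inferInstance, inferInstance, FF, inferInstance, inferInstance, precompact_sub XX,
    FF_closed, FF_gd, not_N⟩

end Pool.Agent.Results.MP_f24352_gt.NotNChar
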